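import Pool.Agent.V5helper43.NC.Stm

/-!
# Project NC, job GEN
-/

set_option autoImplicit false

open Finset

namespace Pool.Agent.V5helper6.NC

open Pool.Agent.Y940.HB (d co d_add three_d_lt lt_of_d_lt le_d exists_split co_pos co_true co_false
  d_zero)
open Pool.Agent.V5helper43.NC

variable {π : Par} (S : Sys π)

theorem X_succ (i : ℕ) : π.X (i + 1) = 4 ^ π.m i * 4 ^ (π.s i + π.l (i + 1)) := by
  unfold Par.X
  rw [π.m_succ, ← pow_add, add_assoc]

theorem elt (c : Bool) (i p x0 x1 e a : ℕ) (hp : p ∈ S.P c i)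
    (h0 : co c * d x0 < 4 ^ (π.s i + π.l (i + 1)))
    (he0 : x1 = 0 → e = 0) (he1 : x1 ≠ 0 → e = co (!c) * d (S.v c i p))
    (ha : a = p + 4 ^ π.m i * (e + co c * (d x0 + 4 ^ (π.s i + π.l (i + 1)) * d x1)))
    (hlt : a < π.X (i + 2)) : (a ∈ S.A0 c ∨ a ∈ S.V c i) ∧ a ∈ S.W c i := by
  have hc := co_pos c
  have hd0 : d x0 < 4 ^ (π.s i + π.l (i + 1)) := by
    refine lt_of_le_of_lt ?_ h0
    calc d x0 = 1 * d x0 := (one_mul _).symm
      _ ≤ co c * d x0 := Nat.mul_le_mul_right _ hc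
  have hx0 : x0 < 2 ^ (π.s i + π.l (i + 1)) := lt_of_d_lt _ _ hd0
  have hdu := d_add (π.s i + π.l (i + 1)) x0 x1 hx0
  have hpM := S.P_lt c i hp
  constructor
  · by_cases hx1 : x1 = 0
    · -- level `i` or small
      have ha' : a = p + 4 ^ π.m i * (co c * d x0) := by
        rw [ha, he0 hx1, hx1, d_zero]
        ring
      by_cases hs : x0 < 2 ^ π.l i
      · right
        exact ⟨p, hp, x0, hs, ha'⟩
      · left
        refine ⟨i, ?_, ?_, p, hp, x0, ha'⟩
        · have h1 : 4 ^ π.l i ≤ d x0 := by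
            by_contra hcon
            exact hs (lt_of_d_lt _ _ (not_le.1 hcon))
          rw [ha']
          unfold Par.X
          rw [pow_add]
          calc 4 ^ π.m i * 4 ^ π.l i ≤ 4 ^ π.m i * (co c * d x0) := by
                apply Nat.mul_le_mul_left
                calc 4 ^ π.l i ≤ 1 * d x0 := by rw [one_mul]; exact h1
                  _ ≤ co c * d x0 := Nat.mul_le_mul_right _ hc
            _ ≤ _ := Nat.le_add_left _ _
        · rw [ha', X_succ]
          calc p + 4 ^ π.m i * (co c * d x0) < 4 ^ π.m i + 4 ^ π.m i * (co c * d x0) := by omega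
            _ = 4 ^ π.m i * (co c * d x0 + 1) := by ring
            _ ≤ 4 ^ π.m i * 4 ^ (π.s i + π.l (i + 1)) := Nat.mul_le_mul_left _ h0
    · left
      have he := he1 hx1
      have hx := Nat.mod_add_div (x0 + 2 ^ (π.s i + π.l (i + 1)) * x1) (2 ^ π.s i)
      have ht : (x0 + 2 ^ (π.s i + π.l (i + 1)) * x1) % 2 ^ π.s i < 2 ^ π.s i :=
        Nat.mod_lt _ (by positivity)
      set t := (x0 + 2 ^ (π.s i + π.l (i + 1)) * x1) % 2 ^ π.s i with htdef
      set w := (x0 + 2 ^ (π.s i + π.l (i + 1)) * x1) / 2 ^ π.s i with hwdef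
      have hdx := d_add (π.s i) t w ht
      rw [hx, hdu] at hdx
      refine ⟨i + 1, ?_, hlt, p + 4 ^ π.m i * (co c * d t + co (!c) * d (S.v c i p)), ?_, w, ?_⟩
      · rw [X_succ, ha]
        have h1 : 1 ≤ d x1 := le_trans (Nat.one_le_iff_ne_zero.2 hx1) (le_d x1)
        calc 4 ^ π.m i * 4 ^ (π.s i + π.l (i + 1))
            ≤ 4 ^ π.m i * (e + co c * (d x0 + 4 ^ (π.s i + π.l (i + 1)) * d x1)) := by
              apply Nat.mul_le_mul_left
              calc 4 ^ (π.s i + π.l (i + 1)) = 4 ^ (π.s i + π.l (i + 1)) * 1 := (mul_one _).symm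
                _ ≤ 4 ^ (π.s i + π.l (i + 1)) * d x1 := Nat.mul_le_mul_left _ h1
                _ ≤ d x0 + 4 ^ (π.s i + π.l (i + 1)) * d x1 := Nat.le_add_left _ _
                _ = 1 * (d x0 + 4 ^ (π.s i + π.l (i + 1)) * d x1) := (one_mul _).symm
                _ ≤ co c * (d x0 + 4 ^ (π.s i + π.l (i + 1)) * d x1) :=
                  Nat.mul_le_mul_right _ hc
                _ ≤ _ := Nat.le_add_left _ _
          _ ≤ _ := Nat.le_add_left _ _
      · exact S.mem_P_succ.2 ⟨p, hp, t, ht, rfl⟩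
      · rw [ha, he, hdx, π.m_succ, pow_add]
        ring
  · refine ⟨p, hp, x0 + 2 ^ (π.s i + π.l (i + 1)) * x1, if x1 = 0 then 0 else 1, ?_, ?_⟩
    · split_ifs <;> omega
    · rw [ha, hdu]
      by_cases hx1 : x1 = 0
      · rw [if_pos hx1, he0 hx1]
        ring
      · rw [if_neg hx1, he1 hx1]
        ring

theorem t_GEN : S_GEN := by
  intro π S i n hn1 hn2
  by_cases hbig : n % π.X (i + 1) < 4 * 4 ^ π.m (i + 1)
  · exact Or.inr (Or.inl hbig)
  push Not at hbig
  obtain ⟨p, hp, q, hq, hpq⟩ := S.decode_exists i n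
  have hpM := S.P_lt true i hp
  have hqM := S.P_lt false i hq
  have hXs := X_succ (π := π) i
  set M := 4 ^ π.m i with hM
  set Q := 4 ^ (π.s i + π.l (i + 1)) with hQ
  have hM0 : 0 < M := by positivity
  have hQ0 : 0 < Q := by positivity
  have hX0 : 0 < π.X (i + 1) := by rw [hXs]; positivity
  have hs4 : 4 ^ π.m (i + 1) = M * 4 ^ π.s i := by rw [π.m_succ, pow_add]
  have hs1 : 1 ≤ 4 ^ π.s i := Nat.one_le_pow _ _ (by norm_num)
  -- the remainder and the quotient
  have hnX := Nat.div_add_mod n (π.X (i + 1))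
  have hn0X : n % π.X (i + 1) < π.X (i + 1) := Nat.mod_lt _ hX0
  have hR1 : 1 ≤ n / π.X (i + 1) := (Nat.one_le_div_iff hX0).2 hn1
  set n0 := n % π.X (i + 1) with hn0
  set R1 := n / π.X (i + 1) with hR1def
  have hn0M : n0 % M = n % M := by
    rw [hn0]
    exact Nat.mod_mod_of_dvd _ (by rw [hXs]; exact dvd_mul_right _ _)
  have hMs : M ≤ M * 4 ^ π.s i := Nat.le_mul_of_pos_right _ (by positivity)
  have hpqn : p + q ≤ n0 := by
    rw [hs4] at hbig
    omega
  have hdvd : M ∣ n0 - (p + q) := by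
    apply (Nat.modEq_iff_dvd' hpqn).1
    show (p + q) % M = n0 % M
    rw [hpq, hn0M]
  obtain ⟨R0, hR0⟩ := hdvd
  have hn0eq : n0 = p + q + M * R0 := by omega
  -- bounds for `R0`
  have hR0up : R0 < Q := by
    have : M * R0 < M * Q := by
      rw [← hXs]
      omega
    exact lt_of_mul_lt_mul_left this (Nat.zero_le _)
  have hR0lo : 4 ^ π.s i ≤ R0 := by
    have h1 : M * (4 * 4 ^ π.s i) ≤ M * (R0 + 2) := by
      rw [hs4] at hbig
      calc M * (4 * 4 ^ π.s i) = 4 * (M * 4 ^ π.s i) := by ring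
        _ ≤ n0 := hbig
        _ ≤ M * (R0 + 2) := by rw [hn0eq, mul_add]; omega
    have h2 := le_of_mul_le_mul_left h1 hM0
    omega
  obtain ⟨x1, y1, hxy1⟩ := exists_split R1
  have hv1 := three_d_lt _ _ (S.hv true i p)
  have hv2 := three_d_lt _ _ (S.hv false i q)
  obtain ⟨h, hh0, hh1, hhb⟩ : ∃ h, (x1 = 0 → h = 0) ∧ (x1 ≠ 0 → h = 2 * d (S.v true i p)) ∧
      h ≤ 2 * d (S.v true i p) := by
    by_cases hx1 : x1 = 0
    · exact ⟨0, fun _ => rfl, fun h => absurd hx1 h, Nat.zero_le _⟩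
    · exact ⟨_, fun h => absurd h hx1, fun _ => rfl, le_rfl⟩
  obtain ⟨g, hg0, hg1, hgb⟩ : ∃ g, (y1 = 0 → g = 0) ∧ (y1 ≠ 0 → g = d (S.v false i q)) ∧
      g ≤ d (S.v false i q) := by
    by_cases hy1 : y1 = 0
    · exact ⟨0, fun _ => rfl, fun h => absurd hy1 h, Nat.zero_le _⟩
    · exact ⟨_, fun h => absurd h hy1, fun _ => rfl, le_rfl⟩
  have hhg : h + g ≤ R0 := by omega
  obtain ⟨x0, y0, hxy0⟩ := exists_split (R0 - (h + g))
  have hsum : (p + M * (h + 1 * (d x0 + Q * d x1))) + (q + M * (g + 2 * (d y0 + Q * d y1))) = n := by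
    have e1 : (p + M * (h + 1 * (d x0 + Q * d x1))) + (q + M * (g + 2 * (d y0 + Q * d y1)))
        = p + q + M * ((d x0 + 2 * d y0) + (h + g)) + M * Q * (d x1 + 2 * d y1) := by ring
    rw [e1, hxy0, hxy1, Nat.sub_add_cancel hhg, ← hXs, ← hnX, hn0eq]
    ring
  have ha := elt S true i p x0 x1 h (p + M * (h + 1 * (d x0 + Q * d x1))) hp
    (by rw [co_true, one_mul]; omega) hh0 (by simpa using hh1) (by rw [co_true]) (by omega)
  have hb := elt S false i q y0 y1 g (q + M * (g + 2 * (d y0 + Q * d y1))) hq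
    (by rw [co_false]; omega) hg0 (by simpa using hg1) (by rw [co_false]) (by omega)
  rcases ha.1 with ha1 | ha1
  · rcases hb.1 with hb1 | hb1
    · exact Or.inl ⟨_, ha1, _, hb1, hsum⟩
    · refine Or.inr (Or.inr ⟨false, _, hb1, _, ha.2, ?_⟩)
      rw [add_comm]
      exact hsum
  · exact Or.inr (Or.inr ⟨true, _, ha1, _, hb.2, hsum⟩)

end Pool.Agent.V5helper6.NC
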